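import Pool.Agent.V11275.QSeries

set_option autoImplicit false

open PowerSeries

namespace Pool.Agent.Results.MP_e05153_nt.NoZero

open Pool.Agent.V11275

/-! ### the operator `th` -/

section th

variable {K : Type*} [Field K]

lemma th_mul (a b : PowerSeries K) : th (a * b) = th a * b + a * th b := by
  unfold th
  rw [Derivation.leibniz]
  simp only [smul_eq_mul]
  ring

lemma th_pow (a : PowerSeries K) (n : ℕ) : th (a ^ (n + 1)) = (n + 1 : ℕ) * a ^ n * th a := by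
  induction n with
  | zero => simp
  | succ n ih =>
    rw [pow_succ, th_mul, ih]
    push_cast
    ring

lemma th_sub (a b : PowerSeries K) : th (a - b) = th a - th b := by
  unfold th; rw [map_sub]; ring

lemma th_C_mul (c : K) (b : PowerSeries K) : th (C c * b) = C c * th b := by
  ext n
  rw [coeff_th, coeff_C_mul, coeff_C_mul, coeff_th]; ring

lemma th_inv (a : PowerSeries K) (ha : constantCoeff a ≠ 0) : th a⁻¹ = -(a⁻¹ ^ 2 * th a) := by
  have h1 : a * a⁻¹ = 1 := PowerSeries.mul_inv_cancel a ha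
  have h2 : th (1 : PowerSeries K) = 0 := by
    ext n
    rw [coeff_th]
    rcases n with _ | n <;> simp [coeff_one]
  have h3 := congrArg th h1
  rw [th_mul, h2] at h3
  have h4 : a⁻¹ * (th a * a⁻¹ + a * th a⁻¹) = 0 := by rw [h3, mul_zero]
  have h5 : a⁻¹ * (th a * a⁻¹ + a * th a⁻¹) = a⁻¹ ^ 2 * th a + (a * a⁻¹) * th a⁻¹ := by ring
  rw [h5, h1, one_mul] at h4
  linear_combination h4

lemma th_one : th (1 : PowerSeries K) = 0 := by
  ext n
  rw [coeff_th]
  rcases n with _ | n <;> simp [coeff_one]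

lemma th_of_mul_eq_one {V W : PowerSeries K} (h : V * W = 1) : th W = -(W ^ 2 * th V) := by
  have h3 := congrArg th h
  rw [th_mul, th_one] at h3
  linear_combination W * h3 - (th W) * h

/-- residue computation -/
lemma coeff_residue [CharZero K] {V W : PowerSeries K} (hVW : V * W = 1) (r : ℕ) (hr : 0 < r) :
    coeff r (W ^ r * (1 + th V * W)) = 0 := by
  obtain ⟨s, rfl⟩ : ∃ s, r = s + 1 := ⟨r - 1, by omega⟩
  have h1 : th (W ^ (s + 1)) = ((s + 1 : ℕ) : PowerSeries K) * W ^ s * th W := th_pow _ _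
  rw [th_of_mul_eq_one hVW] at h1
  have h2 : W ^ (s + 1) * (1 + th V * W) = W ^ (s + 1) + W ^ (s + 2) * th V := by ring
  have h3 : th (W ^ (s + 1)) = C (-((s + 1 : ℕ) : K)) * (W ^ (s + 2) * th V) := by
    rw [h1, map_neg, map_natCast]; ring
  have h4 := congrArg (coeff (s + 1)) h3
  rw [coeff_th, coeff_C_mul] at h4
  rw [h2, map_add]
  have h5 : ((s + 1 : ℕ) : K) ≠ 0 := by exact_mod_cast Nat.succ_ne_zero s
  have h6 : ((s + 1 : ℕ) : K) * (coeff (s + 1) (W ^ (s + 1)) + coeff (s + 1) (W ^ (s + 2) * th V)) = 0 := by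
    linear_combination h4
  rcases mul_eq_zero.mp h6 with h | h
  · exact absurd h h5
  · exact h

/-- coefficient extraction -/
lemma extract [CharZero K] (D : ℕ) (a : ℕ → K) {V W : PowerSeries K} (H : PowerSeries K)
    (hVW : V * W = 1)
    (h : ∑ n ∈ Finset.range (D + 1), C (a n) * X ^ (D - n) * W ^ n = H) (n₀ : ℕ) (hn₀ : n₀ ≤ D) :
    a n₀ = coeff (D - n₀) (H * V ^ n₀ * (1 + th V * W)) := by
  have hpow : W ^ n₀ * V ^ n₀ = 1 := by rw [← mul_pow, mul_comm, hVW, one_pow]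
  rw [← h, Finset.sum_mul, Finset.sum_mul, map_sum]
  rw [Finset.sum_eq_single n₀]
  · have h1 : C (a n₀) * X ^ (D - n₀) * W ^ n₀ * V ^ n₀ * (1 + th V * W)
        = C (a n₀) * (X ^ (D - n₀) * (1 + th V * W)) := by
      linear_combination (C (a n₀) * X ^ (D - n₀) * (1 + th V * W)) * hpow
    rw [h1, coeff_C_mul]
    have h2 := coeff_X_pow_mul (1 + th V * W) (D - n₀) 0
    rw [zero_add] at h2
    rw [h2]
    unfold th
    simp
  · intro n hn hne
    have hnD : n ≤ D := by have := Finset.mem_range.mp hn; omega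
    rcases Nat.lt_or_gt_of_ne hne with hlt | hgt
    · have h1 : C (a n) * X ^ (D - n) * W ^ n * V ^ n₀ * (1 + th V * W)
          = X ^ (D - n) * (C (a n) * W ^ n * V ^ n₀ * (1 + th V * W)) := by ring
      rw [h1, coeff_X_pow_mul', if_neg (by omega)]
    · obtain ⟨r, hr⟩ : ∃ r, n = n₀ + r := ⟨n - n₀, by omega⟩
      have hr0 : 0 < r := by omega
      have h1 : C (a n) * X ^ (D - n) * W ^ n * V ^ n₀ * (1 + th V * W)
          = C (a n) * (X ^ (D - n) * (W ^ r * (1 + th V * W))) := by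
        rw [hr, pow_add]
        linear_combination (C (a (n₀ + r)) * X ^ (D - (n₀ + r)) * W ^ r * (1 + th V * W)) * hpow
      rw [h1, coeff_C_mul, coeff_X_pow_mul', if_pos (by omega)]
      have h2 : D - n₀ - (D - n) = r := by omega
      rw [h2, coeff_residue hVW r hr0, mul_zero]
  · intro hn
    exact absurd (Finset.mem_range.mpr (by omega)) hn

end th

/-! ### positivity -/

/-- all coefficients are nonnegative -/
def NN (φ : PowerSeries ℝ) : Prop := ∀ n, 0 ≤ coeff n φ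

lemma NN.mul {φ ψ : PowerSeries ℝ} (h1 : NN φ) (h2 : NN ψ) : NN (φ * ψ) := by
  intro n
  rw [coeff_mul]
  exact Finset.sum_nonneg fun x _ => mul_nonneg (h1 _) (h2 _)

lemma NN.one : NN (1 : PowerSeries ℝ) := by
  intro n
  rw [coeff_one]; split_ifs <;> norm_num

lemma NN.pow {φ : PowerSeries ℝ} (h1 : NN φ) (n : ℕ) : NN (φ ^ n) := by
  induction n with
  | zero => simpa using NN.one
  | succ n ih => rw [pow_succ]; exact ih.mul h1

lemma pos_mul {φ ψ : PowerSeries ℝ} (h1 : ∀ n, 0 < coeff n φ) (h2 : NN ψ) (h3 : 0 < coeff 0 ψ)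
    (n : ℕ) : 0 < coeff n (φ * ψ) := by
  rw [coeff_mul]
  refine Finset.sum_pos' (fun x _ => mul_nonneg (h1 _).le (h2 _)) ⟨(n, 0), by simp, ?_⟩
  exact mul_pos (h1 n) h3

lemma r4_NN : NN r4 := by
  intro n
  rw [r4, coeff_mk]
  split_ifs
  · norm_num
  · positivity

lemma r4_zero : coeff 0 r4 = 1 := by rw [r4, coeff_mk]; simp
lemma r6_zero : coeff 0 r6 = 1 := by rw [r6, coeff_mk]; simp
lemma r6_cc : constantCoeff r6 = 1 := by rw [← coeff_zero_eq_constantCoeff_apply, r6_zero]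

lemma r6_inv_mul : r6 * r6⁻¹ = 1 := PowerSeries.mul_inv_cancel _ (by rw [r6_cc]; norm_num)

lemma r6_inv_zero : coeff 0 (r6⁻¹) = 1 := by
  rw [coeff_zero_eq_constantCoeff_apply, PowerSeries.constantCoeff_inv, r6_cc]; norm_num

lemma r6_inv_pos (n : ℕ) : 0 < coeff n (r6⁻¹) := by
  induction n using Nat.strong_induction_on with
  | _ n ih =>
    rcases Nat.eq_zero_or_pos n with rfl | hn
    · rw [r6_inv_zero]; norm_num
    · have h1 := congrArg (coeff n) r6_inv_mul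
      rw [coeff_mul, coeff_one, if_neg hn.ne',
        Finset.Nat.sum_antidiagonal_eq_sum_range_succ (fun i j => coeff i r6 * coeff j r6⁻¹) n,
        Finset.sum_range_succ'] at h1
      simp only [r6_zero, one_mul, Nat.sub_zero] at h1
      have h2 : ∑ k ∈ Finset.range n, coeff (k + 1) r6 * coeff (n - (k + 1)) r6⁻¹ < 0 := by
        apply Finset.sum_neg
        · intro k hk
          have hk' := Finset.mem_range.mp hk
          have h3 : coeff (k + 1) r6 < 0 := by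
            rw [r6, coeff_mk, if_neg (Nat.succ_ne_zero k)]
            have : 0 < ArithmeticFunction.sigma 5 (k + 1) := by
              rw [ArithmeticFunction.sigma_apply]
              exact Finset.sum_pos (fun d hd => pow_pos (Nat.pos_of_mem_divisors hd) _)
                ⟨1, by simp⟩
            have : (0 : ℝ) < ArithmeticFunction.sigma 5 (k + 1) := by exact_mod_cast this
            linarith
          exact mul_neg_of_neg_of_pos h3 (ih _ (by omega))
        · exact ⟨0, Finset.mem_range.mpr hn⟩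
      linarith

/-- `Δ` as a real power series -/
noncomputable def rD : PowerSeries ℝ := C (1728⁻¹ : ℝ) * (r4 ^ 3 - r6 ^ 2)

/-- `Δ / q` -/
noncomputable def u : PowerSeries ℝ := mk fun n => coeff (n + 1) rD

lemma rD_zero : coeff 0 rD = 0 := by
  unfold rD
  rw [coeff_C_mul, map_sub]
  have h1 : coeff 0 (r4 ^ 3) = 1 := by
    rw [coeff_zero_eq_constantCoeff_apply, map_pow, ← coeff_zero_eq_constantCoeff_apply, r4_zero]
    norm_num
  have h2 : coeff 0 (r6 ^ 2) = 1 := by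
    rw [coeff_zero_eq_constantCoeff_apply, map_pow, ← coeff_zero_eq_constantCoeff_apply, r6_zero]
    norm_num
  rw [h1, h2]; norm_num

lemma rD_eq : rD = X * u := by
  ext n
  rcases n with _ | n
  · rw [rD_zero]; simp
  · rw [coeff_succ_X_mul, u, coeff_mk]

lemma u_zero : coeff 0 u = 1 := by
  rw [u, coeff_mk, rD, coeff_C_mul, map_sub]
  have h4 : coeff 1 r4 = 240 := by rw [r4, coeff_mk]; simp
  have h6 : coeff 1 r6 = -504 := by rw [r6, coeff_mk]; simp
  norm_num [pow_succ, coeff_mul, Finset.Nat.antidiagonal_succ, h4, h6, r4_zero, r6_zero]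

lemma u_cc : constantCoeff u = 1 := by rw [← coeff_zero_eq_constantCoeff_apply, u_zero]

lemma th_rD : th rD = r2 * rD := by
  unfold rD
  have h1 : th (r4 ^ 3) = ((2 + 1 : ℕ) : PowerSeries ℝ) * r4 ^ 2 * th r4 := th_pow r4 2
  have h2 : th (r6 ^ 2) = ((1 + 1 : ℕ) : PowerSeries ℝ) * r6 ^ 1 * th r6 := th_pow r6 1
  rw [th_C_mul, th_sub, h1, h2, th_r4, th_r6]
  have h3 : (C (3⁻¹ : ℝ) : PowerSeries ℝ) * 3 = 1 := by
    have : (3 : PowerSeries ℝ) = C (3 : ℝ) := (map_ofNat C 3).symm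
    rw [this, ← map_mul]; norm_num
  have h4 : (C (2⁻¹ : ℝ) : PowerSeries ℝ) * 2 = 1 := by
    have : (2 : PowerSeries ℝ) = C (2 : ℝ) := (map_ofNat C 2).symm
    rw [this, ← map_mul]; norm_num
  push_cast
  linear_combination (C (1728⁻¹ : ℝ) * r4 ^ 2 * (r2 * r4 - r6)) * h3
    - (C (1728⁻¹ : ℝ) * r6 * (r2 * r6 - r4 ^ 2)) * h4

lemma th_u : th u = (r2 - 1) * u := by
  have h1 := th_rD
  rw [rD_eq, th_mul] at h1
  have h2 : th (X : PowerSeries ℝ) = X := by
    unfold th; simp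
  rw [h2] at h1
  have h3 : (X : PowerSeries ℝ) * th u = X * ((r2 - 1) * u) := by linear_combination h1
  exact mul_left_cancel₀ X_ne_zero h3

lemma u_inv_mul : u * u⁻¹ = 1 := PowerSeries.mul_inv_cancel _ (by rw [u_cc]; norm_num)

lemma u_inv_zero : coeff 0 (u⁻¹) = 1 := by
  rw [coeff_zero_eq_constantCoeff_apply, PowerSeries.constantCoeff_inv, u_cc]; norm_num

lemma th_u_inv : th u⁻¹ = (1 - r2) * u⁻¹ := by
  rw [th_inv u (by rw [u_cc]; norm_num), th_u]
  linear_combination (-(u⁻¹) * (r2 - 1)) * u_inv_mul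

lemma u_inv_NN : NN (u⁻¹) := by
  intro n
  induction n using Nat.strong_induction_on with
  | _ n ih =>
    rcases Nat.eq_zero_or_pos n with rfl | hn
    · rw [u_inv_zero]; norm_num
    · have h1 := congrArg (coeff n) th_u_inv
      rw [coeff_th, coeff_mul,
        Finset.Nat.sum_antidiagonal_eq_sum_range_succ (fun i j => coeff i (1 - r2) * coeff j u⁻¹) n,
        Finset.sum_range_succ'] at h1
      have h0 : coeff 0 (1 - r2) = 0 := by
        rw [map_sub, r2, coeff_mk]; simp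
      rw [h0, zero_mul, add_zero] at h1
      have h2 : 0 ≤ ∑ k ∈ Finset.range n, coeff (k + 1) (1 - r2) * coeff (n - (k + 1)) u⁻¹ := by
        refine Finset.sum_nonneg fun k hk => mul_nonneg ?_ (ih _ ?_)
        · rw [map_sub, r2, coeff_mk, if_neg (Nat.succ_ne_zero k), coeff_one,
            if_neg (Nat.succ_ne_zero k)]
          have : (0 : ℝ) ≤ ArithmeticFunction.sigma 1 (k + 1) := by positivity
          linarith
        · omega
      rw [← h1] at h2
      have hn' : (0 : ℝ) < n := by exact_mod_cast hn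
      by_contra hneg
      push Not at hneg
      have := mul_neg_of_pos_of_neg hn' hneg
      linarith

/-- `V = (Δ/q) / E₆²` -/
noncomputable def V : PowerSeries ℝ := u * r6⁻¹ ^ 2

/-- `W = 1 / V` -/
noncomputable def W : PowerSeries ℝ := u⁻¹ * r6 ^ 2

lemma V_mul_W : V * W = 1 := by
  unfold V W
  have : u * r6⁻¹ ^ 2 * (u⁻¹ * r6 ^ 2) = (u * u⁻¹) * (r6 * r6⁻¹) ^ 2 := by ring
  rw [this, u_inv_mul, r6_inv_mul]; ring

lemma ring_aux {R : Type*} [CommRing R] (a b c d p s t : R) (hab : a * b = 1) (hcd : c * d = 1)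
    (ht : t * 2 = 1) :
    1 + (((p - 1) * a) * d ^ 2 + a * ((1 + 1) * d ^ 1 * -(d ^ 2 * (t * (p * c - s ^ 2))))) *
        (b * c ^ 2) = s ^ 2 * d := by
  have e1 : 1 + (((p - 1) * a) * d ^ 2 + a * ((1 + 1) * d ^ 1 *
      -(d ^ 2 * (t * (p * c - s ^ 2))))) * (b * c ^ 2)
      = 1 + (a * b) * ((p - 1) * (c * d) ^ 2
        - (t * 2) * (p * (c * d) ^ 3 - s ^ 2 * d * (c * d) ^ 2)) := by ring
  rw [e1, hab, hcd, ht]; ring

lemma log_V : 1 + th V * W = r4 ^ 2 * r6⁻¹ := by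
  have h1 : th (r6⁻¹ ^ 2) = ((1 + 1 : ℕ) : PowerSeries ℝ) * r6⁻¹ ^ 1 * th r6⁻¹ := th_pow r6⁻¹ 1
  have h2 : th (r6⁻¹) = -(r6⁻¹ ^ 2 * th r6) := th_of_mul_eq_one r6_inv_mul
  unfold V W
  rw [th_mul, h1, h2, th_u, th_r6]
  have h4 : (C (2⁻¹ : ℝ) : PowerSeries ℝ) * 2 = 1 := by
    have : (2 : PowerSeries ℝ) = C (2 : ℝ) := (map_ofNat C 2).symm
    rw [this, ← map_mul]; norm_num
  rw [Nat.cast_add, Nat.cast_one]
  exact ring_aux u u⁻¹ r6 r6⁻¹ r2 r4 (C (2⁻¹ : ℝ)) u_inv_mul r6_inv_mul h4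

/-- the factor `E_{k'}` as a function of `E₄` and `E₆` -/
def ekf (k' : ℕ) {R : Type*} [CommRing R] (a b : R) : R :=
  if k' = 0 then 1 else if k' = 4 then a else if k' = 6 then b else if k' = 8 then a ^ 2
  else if k' = 10 then a * b else a ^ 2 * b

/-- the quotient `E₄² / E_{k'}` -/
noncomputable def wk (k' : ℕ) : PowerSeries ℝ :=
  if k' = 0 then r4 ^ 2 else if k' = 4 then r4 else if k' = 6 then r4 ^ 2 * r6⁻¹
  else if k' = 8 then 1 else if k' = 10 then r4 * r6⁻¹ else r6⁻¹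

lemma wk_mul (k' : ℕ) : wk k' * ekf k' r4 r6 = r4 ^ 2 := by
  unfold wk ekf
  have h := r6_inv_mul
  split_ifs
  · ring
  · ring
  · linear_combination (r4 ^ 2) * h
  · ring
  · linear_combination (r4 ^ 2) * h
  · linear_combination (r4 ^ 2) * h

lemma r6_inv_NN : NN (r6⁻¹) := fun n => (r6_inv_pos n).le

lemma wk_NN (k' : ℕ) : NN (wk k') := by
  unfold wk
  split_ifs
  · exact r4_NN.pow 2
  · exact r4_NN
  · exact (r4_NN.pow 2).mul r6_inv_NN
  · exact NN.one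
  · exact r4_NN.mul r6_inv_NN
  · exact r6_inv_NN

lemma cc_of {φ : PowerSeries ℝ} (h : coeff 0 φ = 1) : constantCoeff φ = 1 := by
  rw [← coeff_zero_eq_constantCoeff_apply, h]

lemma wk_zero (k' : ℕ) : coeff 0 (wk k') = 1 := by
  unfold wk
  rw [coeff_zero_eq_constantCoeff_apply]
  split_ifs <;> simp [cc_of r4_zero, cc_of r6_inv_zero, -PowerSeries.constantCoeff_inv]

/-- the positive coefficients -/
lemma main_pos (k' a b n : ℕ) : 0 < coeff n (r6⁻¹ ^ (2 * a + 1) * (u⁻¹ ^ b * wk k')) := by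
  have h1 : r6⁻¹ ^ (2 * a + 1) * (u⁻¹ ^ b * wk k') = r6⁻¹ * (r6⁻¹ ^ (2 * a) * (u⁻¹ ^ b * wk k')) := by
    ring
  rw [h1]
  refine pos_mul r6_inv_pos ((r6_inv_NN.pow _).mul ((u_inv_NN.pow _).mul (wk_NN k'))) ?_ n
  rw [coeff_zero_eq_constantCoeff_apply]
  simp [cc_of (wk_zero k'), cc_of r6_inv_zero, cc_of u_inv_zero, -PowerSeries.constantCoeff_inv]

open UpperHalfPlane EisensteinSeries ModularForm MatrixGroups Pool.Agent.W97.MT

/-- The factor `E_{k'}` for `k' ∈ {0, 4, 6, 8, 10, 14}`: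
`1`, `E₄`, `E₆`, `E₄²`, `E₄ E₆`, `E₄² E₆` respectively. -/
noncomputable def Efac (k' : ℕ) (τ : ℍ) : ℂ :=
  if k' = 0 then 1 else if k' = 4 then E₄ τ else if k' = 6 then E₆ τ
  else if k' = 8 then E₄ τ ^ 2 else if k' = 10 then E₄ τ * E₆ τ else E₄ τ ^ 2 * E₆ τ

/-- The `j`-invariant `E₄³ / Δ`. -/
noncomputable def jinv (τ : ℍ) : ℂ := E₄ τ ^ 3 / discriminant τ

lemma disc_ne (τ : ℍ) : discriminant τ ≠ 0 := discriminant_ne_zero τ

lemma j_sub (τ : ℍ) : jinv τ - 1728 = E₆ τ ^ 2 / discriminant τ := by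
  have h1 := discriminant_eq_E₄_cube_sub_E₆_sq τ
  have h2 := disc_ne τ
  have h3 : E₄ τ ^ 3 = 1728 * discriminant τ + E₆ τ ^ 2 := by rw [h1]; ring
  unfold jinv
  rw [h3]
  field_simp
  ring

lemma repC_sum (s : Finset ℕ) (h : ℕ → ℂ → ℂ) (φ : ℕ → PowerSeries ℂ)
    (H : ∀ i, RepC (h i) (φ i)) : RepC (fun q => ∑ i ∈ s, h i q) (∑ i ∈ s, φ i) := by
  induction s using Finset.induction_on with
  | empty =>
    simp only [Finset.sum_empty]
    have := RepC.C (0 : ℂ)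
    rwa [map_zero] at this
  | insert a s ha ih =>
    simp only [Finset.sum_insert ha]
    exact (H a).add ih

lemma repC_ekf (k' : ℕ) {h k : ℂ → ℂ} {φ ψ : PowerSeries ℂ} (hf : RepC h φ) (hg : RepC k ψ) :
    RepC (fun q => ekf k' (h q) (k q)) (ekf k' φ ψ) := by
  unfold ekf
  split_ifs
  · exact RepC.one
  · exact hf
  · exact hg
  · exact hf.pow 2
  · exact hf.mul hg
  · exact (hf.pow 2).mul hg

lemma ofR_ekf (k' : ℕ) : ofR (ekf k' r4 r6) = ekf k' (qExpansion 1 E₄) (qExpansion 1 E₆) := by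
  rw [← ofR_r4, ← ofR_r6]
  unfold ekf
  split_ifs <;> simp

/-- the coefficients of `F (1728 + y)` -/
theorem coeffs_pos (k ℓ k' m : ℕ) (hm : m ≤ ℓ) (f : ModularForm 𝒮ℒ k)
    (hf : ∀ i ≤ ℓ, (qExpansion 1 f).coeff i = if i = m then 1 else 0)
    (a : ℕ → ℂ)
    (hF : ∀ τ : ℍ, f τ = Efac k' τ * ∑ n ∈ Finset.range (ℓ - m + 1),
      a n * (E₆ τ ^ (2 * n) * discriminant τ ^ (ℓ - n))) (n₀ : ℕ) (hn₀ : n₀ ≤ ℓ - m) :
    ∃ r : ℝ, 0 < r ∧ a n₀ = r := by
  -- the identity of power series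
  have hD : RepC (fun q => (1728⁻¹ : ℂ) * (cuspFunction 1 E₄ q ^ 3 - cuspFunction 1 E₆ q ^ 2)) (ofR rD) := by
    have h1 : ofR rD = C (1728⁻¹ : ℂ) * (qExpansion 1 E₄ ^ 3 - qExpansion 1 E₆ ^ 2) := by
      unfold rD
      rw [map_mul, map_sub, map_pow, map_pow, ofR_C, ofR_r4, ofR_r6]
      push_cast; rfl
    rw [h1]
    exact (RepC.C _).mul (((repC_modularForm E₄).pow 3).sub ((repC_modularForm E₆).pow 2))
  have hser : qExpansion 1 f = ofR (ekf k' r4 r6) * ∑ n ∈ Finset.range (ℓ - m + 1),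
      C (a n) * ((ofR r6) ^ (2 * n) * (ofR rD) ^ (ℓ - n)) := by
    rw [ofR_ekf, ofR_r6]
    refine repC_unique' (repC_modularForm f)
      ((repC_ekf k' (repC_modularForm E₄) (repC_modularForm E₆)).mul
        (repC_sum _ _ _ (fun n => (RepC.C (a n)).mul
          (((repC_modularForm E₆).pow (2 * n)).mul (hD.pow (ℓ - n)))))) ?_
    intro q h0 h1
    obtain ⟨τ, rfl⟩ := exists_tau h0 h1
    rw [cusp_eq, cusp_eq, cusp_eq, hF τ]
    have h2 : (1728⁻¹ : ℂ) * (E₄ τ ^ 3 - E₆ τ ^ 2) = discriminant τ := by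
      rw [discriminant_eq_E₄_cube_sub_E₆_sq τ]; ring
    rw [h2]
    rfl
  -- low order coefficients of `f`
  obtain ⟨h, hh⟩ : ∃ h : PowerSeries ℂ, qExpansion 1 f = X ^ m * (1 + X ^ (ℓ - m + 1) * h) := by
    have h1 : (X : PowerSeries ℂ) ^ (ℓ + 1) ∣ qExpansion 1 f - X ^ m := by
      rw [X_pow_dvd_iff]
      intro i hi
      rw [map_sub, hf i (by omega), coeff_X_pow]
      split_ifs <;> simp
    obtain ⟨h, hh⟩ := h1
    refine ⟨h, ?_⟩
    have h2 : (X : PowerSeries ℂ) ^ (ℓ + 1) = X ^ m * X ^ (ℓ - m + 1) := by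
      rw [← pow_add]; congr 1; omega
    rw [h2] at hh
    linear_combination hh
  -- cancel `X ^ m`
  set H : PowerSeries ℂ := ∑ n ∈ Finset.range (ℓ - m + 1), C (a n) * X ^ (ℓ - m - n) * (ofR W) ^ n
    with hH
  have hu : ofR u * ofR u⁻¹ = 1 := by rw [← map_mul, u_inv_mul, map_one]
  have hu' : ∀ i : ℕ, (ofR u) ^ i * (ofR u⁻¹) ^ i = 1 := fun i => by
    rw [← mul_pow, hu, one_pow]
  have hsum : ∑ n ∈ Finset.range (ℓ - m + 1), C (a n) * ((ofR r6) ^ (2 * n) * (ofR rD) ^ (ℓ - n))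
      = X ^ m * ((ofR u) ^ ℓ * H) := by
    rw [hH, Finset.mul_sum, Finset.mul_sum]
    refine Finset.sum_congr rfl ?_
    intro n hn
    have hn' : n ≤ ℓ - m := by have := Finset.mem_range.mp hn; omega
    have h1 : ofR rD = X * ofR u := by
      rw [rD_eq, map_mul]
      congr 1
      unfold ofR; exact PowerSeries.map_X _
    have h2 : (X : PowerSeries ℂ) ^ (ℓ - n) = X ^ m * X ^ (ℓ - m - n) := by
      rw [← pow_add]; congr 1; omega
    have h3 : (ofR u) ^ ℓ = (ofR u) ^ (ℓ - n) * (ofR u) ^ n := by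
      rw [← pow_add]; congr 1; omega
    rw [h1, mul_pow, h2, h3]
    unfold W
    rw [map_mul, mul_pow, map_pow, ← pow_mul]
    linear_combination (-(C (a n) * ofR r6 ^ (2 * n) * X ^ m * X ^ (ℓ - m - n) * ofR u ^ (ℓ - n))) * hu' n
  have hmain : ofR (ekf k' r4 r6) * ((ofR u) ^ ℓ * H) = 1 + X ^ (ℓ - m + 1) * h := by
    have h1 : (X : PowerSeries ℂ) ^ m * (ofR (ekf k' r4 r6) * ((ofR u) ^ ℓ * H))
        = X ^ m * (1 + X ^ (ℓ - m + 1) * h) := by
      rw [← hh, hser, hsum]; ring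
    exact mul_left_cancel₀ (pow_ne_zero _ X_ne_zero) h1
  -- extraction
  have hVW : ofR V * ofR W = 1 := by rw [← map_mul, V_mul_W, map_one]
  have hlog : 1 + th (ofR V) * ofR W = ofR (r4 ^ 2 * r6⁻¹) := by
    rw [← log_V, map_add, map_one, map_mul, ofR_th]
  have hext := extract (ℓ - m) a H hVW hH.symm n₀ hn₀
  rw [hlog] at hext
  have hVp : ofR V ^ n₀ = ofR u ^ n₀ * ofR (r6⁻¹) ^ (2 * n₀) := by
    unfold V
    rw [map_mul, map_pow, mul_pow, ← pow_mul]
  have hw : ofR (wk k') * ofR (ekf k' r4 r6) = ofR r4 ^ 2 := by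
    rw [← map_mul, wk_mul, map_pow]
  have hfin : H * ofR V ^ n₀ * ofR (r4 ^ 2 * r6⁻¹)
      = ofR (r6⁻¹ ^ (2 * n₀ + 1) * (u⁻¹ ^ (ℓ - n₀) * wk k')) * (1 + X ^ (ℓ - m + 1) * h) := by
    rw [← hmain, hVp]
    simp only [map_mul, map_pow]
    have h3 : (ofR u) ^ ℓ = (ofR u) ^ (ℓ - n₀) * (ofR u) ^ n₀ := by
      rw [← pow_add]; congr 1; omega
    rw [h3, pow_succ]
    linear_combination (-(H * ofR u ^ n₀ * ofR r6⁻¹ ^ (2 * n₀) * ofR r6⁻¹)) * hw
      - (ofR (wk k') * ofR (ekf k' r4 r6) * H * ofR u ^ n₀ * ofR r6⁻¹ ^ (2 * n₀) * ofR r6⁻¹) * hu' (ℓ - n₀)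
  rw [hfin] at hext
  refine ⟨coeff (ℓ - m - n₀) (r6⁻¹ ^ (2 * n₀ + 1) * (u⁻¹ ^ (ℓ - n₀) * wk k')), main_pos _ _ _ _, ?_⟩
  rw [hext, mul_add, mul_one, map_add, coeff_ofR]
  have h1 : coeff (ℓ - m - n₀) (ofR (r6⁻¹ ^ (2 * n₀ + 1) * (u⁻¹ ^ (ℓ - n₀) * wk k')) *
      (X ^ (ℓ - m + 1) * h)) = 0 := by
    have h2 : ofR (r6⁻¹ ^ (2 * n₀ + 1) * (u⁻¹ ^ (ℓ - n₀) * wk k')) * (X ^ (ℓ - m + 1) * h)
        = X ^ (ℓ - m + 1) * (ofR (r6⁻¹ ^ (2 * n₀ + 1) * (u⁻¹ ^ (ℓ - n₀) * wk k')) * h) := by ring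
    rw [h2, coeff_X_pow_mul', if_neg (by omega)]
  rw [h1, add_zero]

/-- The Faber polynomials of the Miller basis have no zero in `[1728, ∞)`. -/
theorem result (k ℓ k' m : ℕ) (hk' : k' ∈ ({0, 4, 6, 8, 10, 14} : Finset ℕ))
    (hk : k = 12 * ℓ + k') (hm : m ≤ ℓ) (f : ModularForm 𝒮ℒ k)
    (hf : ∀ i ≤ ℓ, (qExpansion 1 f).coeff i = if i = m then 1 else 0)
    (F : Polynomial ℂ) (hmonic : F.Monic) (hdeg : F.natDegree = ℓ - m)
    (hF : ∀ τ : ℍ, f τ = discriminant τ ^ ℓ * Efac k' τ * F.eval (jinv τ))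
    (x : ℝ) (hx : 1728 ≤ x) : F.eval (x : ℂ) ≠ 0 := by
  set G : Polynomial ℂ := F.comp (Polynomial.X + Polynomial.C 1728) with hG
  have hGdeg : G.natDegree = ℓ - m := by
    rw [hG, Polynomial.natDegree_comp, hdeg, Polynomial.natDegree_X_add_C, mul_one]
  have hGeval : ∀ z : ℂ, F.eval z = ∑ n ∈ Finset.range (ℓ - m + 1), G.coeff n * (z - 1728) ^ n := by
    intro z
    rw [← hGdeg, ← Polynomial.eval_eq_sum_range, hG, Polynomial.eval_comp]
    simp
  have hpos := coeffs_pos k ℓ k' m hm f hf (fun n => G.coeff n) (by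
    intro τ
    have hd := disc_ne τ
    rw [hF τ, hGeval, Finset.mul_sum, Finset.mul_sum]
    refine Finset.sum_congr rfl ?_
    intro n hn
    have hn' : n ≤ ℓ := by have := Finset.mem_range.mp hn; omega
    have h1 : discriminant τ ^ ℓ = discriminant τ ^ (ℓ - n) * discriminant τ ^ n := by
      rw [← pow_add]; congr 1; omega
    rw [j_sub, h1, div_pow, ← pow_mul]
    field_simp)
  choose! r hr using hpos
  have hsum : F.eval (x : ℂ) = ((∑ n ∈ Finset.range (ℓ - m + 1), r n * (x - 1728) ^ n : ℝ) : ℂ) := by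
    rw [hGeval]
    push_cast
    refine Finset.sum_congr rfl ?_
    intro n hn
    rw [← (hr n (by have := Finset.mem_range.mp hn; omega)).2]
  rw [hsum]
  have hxx : 0 ≤ x - 1728 := by linarith
  have hposs : 0 < ∑ n ∈ Finset.range (ℓ - m + 1), r n * (x - 1728) ^ n := by
    refine Finset.sum_pos' (fun n hn => mul_nonneg
      (hr n (by have := Finset.mem_range.mp hn; omega)).1.le (pow_nonneg hxx _))
      ⟨0, Finset.mem_range.mpr (by omega), ?_⟩
    rw [pow_zero, mul_one]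
    exact (hr 0 (by omega)).1
  exact_mod_cast hposs.ne'

end Pool.Agent.Results.MP_e05153_nt.NoZero
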